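import Pool.Agent.Lib.MP_12eaff_co.F.St
import Pool.Agent.Lib.MP_12eaff_co.F.L4
import Pool.Agent.Lib.MP_12eaff_co.Acc2.ZG
import Pool.Agent.Lib.MP_12eaff_co.S8b

set_option autoImplicit false
set_option linter.unusedSectionVars false

namespace Pool.Agent.Lib.MP_12eaff_co.Acc2

open Finset Pool.Agent.Lib.MP_12eaff_co.BK
open scoped Classical

variable {V : Type} [Fintype V] {G : SimpleGraph V} {D : ℕ}

/-- Thirteen members of every largest clique without cross edges. -/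
def Sel (D : ℕ) : Prop := ∀ (V : Type) [Fintype V] (G : SimpleGraph V), MC G D → ∃ F : Finset V,
  (∀ K, IsClq G K → K.card = D → 13 ≤ (K ∩ F).card) ∧
  ∀ K K', IsClq G K → K.card = D → IsClq G K' → K'.card = D → K ≠ K' →
    ∀ a ∈ K ∩ F, ∀ b ∈ K' ∩ F, ¬ G.Adj a b

/-- Exactly thirteen. -/
theorem sel_cut (h : MC G D) (hD : 8 ≤ D) (sel : Sel D) : ∃ F : Finset V,
    (∀ K, IsClq G K → K.card = D → (K ∩ F).card = 13) ∧
    ∀ K K', IsClq G K → K.card = D → IsClq G K' → K'.card = D → K ≠ K' →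
      ∀ a ∈ K ∩ F, ∀ b ∈ K' ∩ F, ¬ G.Adj a b := by
  obtain ⟨F, f1, f2⟩ := sel V G h
  have ex : ∀ K : Finset V, ∃ A : Finset V, IsClq G K → K.card = D → A ⊆ K ∩ F ∧ A.card = 13 :=
    fun K => by
      by_cases k : IsClq G K ∧ K.card = D
      · obtain ⟨A, a⟩ := exists_subset_card_eq (f1 K k.1 k.2)
        exact ⟨A, fun _ _ => a⟩
      · exact ⟨∅, fun a b => absurd ⟨a, b⟩ k⟩
  choose A hA using ex
  have e : ∀ K, IsClq G K → K.card = D →
      K ∩ (univ.filter fun K => IsClq G K ∧ K.card = D).biUnion A = A K := fun K a b => by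
    ext v
    simp only [mem_inter, mem_biUnion, mem_filter, mem_univ, true_and]
    refine ⟨fun ⟨p, K', k, q⟩ => ?_, fun p => ⟨(mem_inter.1 ((hA K a b).1 p)).1, K, ⟨a, b⟩, p⟩⟩
    rwa [dj8 h hD a b k.1 k.2 p (mem_inter.1 ((hA K' k.1 k.2).1 q)).1]
  refine ⟨_, fun K a b => (e K a b).symm ▸ (hA K a b).2, fun K K' a b a' b' n x p y q => ?_⟩
  rw [e K a b] at p
  rw [e K' a' b'] at q
  exact f2 K K' a b a' b' n x ((hA K a b).1 p) y ((hA K' a' b').1 q)

/-- A hole that is not parked does not change validity. -/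
theorem valid_hole {F W K : Finset V} {g : V → ℕ} {r : V}
    (h : (frK G F (insert r W) K).Valid D g) :
    (frK G F W K).Valid D (Function.update g r D) := by
  have k : ∀ w z y, y < D → z ∈ (frK G F W K).sl w → Function.update g r D z = y →
      z ∈ (frK G F (insert r W) K).sl w ∧ g z = y := fun w z y l p q => by
    have n : z ≠ r := fun e => by rw [e, Function.update_self] at q; omega
    rw [Function.update_of_ne n] at q
    exact ⟨mem_sdiff.2 ⟨(mem_sdiff.1 p).1, fun e =>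
      (mem_insert.1 e).elim n (mem_sdiff.1 p).2⟩, q⟩
  have s : ∀ w y, y < D → (frK G F W K).See (Function.update g r D) w y →
      (frK G F (insert r W) K).See g w y := fun w y l ⟨z, p, q⟩ => ⟨z, k w z y l p q⟩
  refine ⟨fun y l => (h.nA y l).imp fun w p => ⟨p.1, fun t => p.2 (s w y l t)⟩,
    fun y l z l' n => le_trans (Nat.add_le_add_right (card_le_card fun w p => ?_) 2)
      (h.nB y l z l' n), fun y l => (card_le_card fun w p => ?_).trans (h.mo y l)⟩
  · obtain ⟨p1, p2, p3⟩ := mem_filter.1 p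
    exact mem_filter.2 ⟨p1, s w y l p2, s w z l' p3⟩
  · obtain ⟨p1, a, a1, b, b1, n, a2, b2⟩ := mem_filter.1 p
    exact mem_filter.2 ⟨p1, a, (k w a y l a1 a2).1, b, (k w b y l b1 b2).1, n,
      (k w a y l a1 a2).2, (k w b y l b1 b2).2⟩

theorem base (h : MC G D) (hD : 8 ≤ D) (sel : Sel D) : ∃ (C : Cx G D) (s0 : C.St), C.Root s0 ∧
    ∀ v, v ∈ C.U ↔ ∃ K, IsClq G K ∧ K.card = D ∧ v ∈ K := by
  obtain ⟨F, f1, f2⟩ := sel_cut h hD sel
  obtain ⟨𝒦, mK⟩ : ∃ 𝒦 : Finset (Finset V), ∀ K, K ∈ 𝒦 ↔ IsClq G K ∧ K.card = D :=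
    ⟨univ.filter fun K => IsClq G K ∧ K.card = D, by simp⟩
  obtain ⟨U, mU⟩ : ∃ U : Finset V, ∀ v, v ∈ U ↔ ∃ K ∈ 𝒦, v ∈ K := ⟨𝒦.biUnion id, by simp⟩
  have dj : ∀ K ∈ 𝒦, ∀ K' ∈ 𝒦, ∀ v ∈ K, v ∈ K' → K = K' := fun K k K' k' v p q =>
    dj8 h hD ((mK K).1 k).1 ((mK K).1 k).2 ((mK K').1 k').1 ((mK K').1 k').2 p q
  have ex : ∀ v, ∃ K : Finset V, v ∈ U → K ∈ 𝒦 ∧ v ∈ K := fun v => by
    by_cases k : v ∈ U
    exacts [((mU v).1 k).imp fun K p _ => p, ⟨∅, fun p => absurd p k⟩]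
  choose cq hq using ex
  let Ok : Finset V → (V → ℕ) → Prop := fun P g => (∀ a, a ∉ U ∪ P → g a < D) ∧
    (∀ a b, a ∉ U ∪ P → b ∉ U ∪ P → G.Adj a b → g a ≠ g b) ∧
    ∀ K ∈ 𝒦, (frK G F (U ∪ P) K).Valid D g
  obtain ⟨P0, p0, mn⟩ := exists_min_image (univ.filter fun P => ∃ g, Ok P g) card
    ⟨univ, mem_filter.2 ⟨mem_univ _, fun _ => 0, by simp, by simp, fun K k => by
      have c := f1 K ((mK K).1 k).1 ((mK K).1 k).2
      have n : ∀ w y, ¬ (frK G F (U ∪ univ) K).See (fun _ => 0) w y := fun w y ⟨z, p, _⟩ => by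
        simp [frK] at p
      refine ⟨fun y _ => ?_, fun y _ z _ _ => ?_, fun y _ => ?_⟩
      · obtain ⟨w, p⟩ := card_pos.1 (by omega : 0 < (K ∩ F).card)
        exact ⟨w, p, n w y⟩
      · rw [filter_eq_empty_iff.2 fun w _ t => n w y t.1]
        show _ ≤ (K ∩ F).card
        simp [c]
      · rw [filter_eq_empty_iff.2 fun w _ ⟨a, p, _, _, _, q, _⟩ => n w y ⟨a, p, q⟩]
        simp⟩⟩
  obtain ⟨g, g1, g2, g3⟩ := (mem_filter.1 p0).2
  have less : ∀ r ∈ P0, ∀ g, ¬ Ok (P0.erase r) g := fun r p g k => by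
    have := mn _ (mem_filter.2 ⟨mem_univ _, g, k⟩)
    have := card_erase_add_one p
    omega
  obtain ⟨r, hr⟩ : P0.Nonempty := by
    rw [nonempty_iff_ne_empty]
    rintro rfl
    simp only [union_empty] at g1 g2 g3
    have e : ∀ K : Finset V, K \ Fᶜ = K ∩ F := fun K => by ext v; simp
    refine h.ncol (zg_colr (Z := Fᶜ) h.deg mU dj (fun K => (mK K).1) (fun K k u p v q n a => ?_)
      (fun K k => ?_) g1 g2 (fun K k y l => ?_) fun K k y l z l' n => ?_)
    · by_contra! c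
      obtain ⟨K', k', q'⟩ := (mU v).1 q
      exact f2 K K' ((mK K).1 k).1 ((mK K).1 k).2 ((mK K').1 k').1 ((mK K').1 k').2
        (fun t => n (t ▸ q')) u (mem_inter.2 ⟨p, by simpa using c.1⟩) v
        (mem_inter.2 ⟨q', by simpa using c.2⟩) a
    · rw [e, f1 K ((mK K).1 k).1 ((mK K).1 k).2]; omega
    · obtain ⟨w, p, q⟩ := (g3 K k).nA y l
      exact ⟨w, e K ▸ p, fun m a b t => q ⟨m, mem_sdiff.2 ⟨mem_nb.2 b, a⟩, t⟩⟩
    · rw [e]
      refine le_trans (Nat.add_le_add_right (card_le_card fun w p => ?_) 2)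
        ((g3 K k).nB y l z l' n)
      obtain ⟨p1, ⟨a, a1, a2, a3⟩, b, b1, b2, b3⟩ := mem_filter.1 p
      exact mem_filter.2 ⟨p1, ⟨a, mem_sdiff.2 ⟨mem_nb.2 a2, a1⟩, a3⟩,
        b, mem_sdiff.2 ⟨mem_nb.2 b2, b1⟩, b3⟩
  have rU : r ∉ U := fun k => less r hr g (by
    have : U ∪ P0.erase r = U ∪ P0 := by
      ext v; by_cases e : v = r <;> simp [e, k]
    simp only [Ok, this]
    exact ⟨g1, g2, g3⟩)
  have e : U ∪ P0 = insert r (U ∪ P0.erase r) := by
    ext v; by_cases e : v = r <;> simp [e, hr]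
  rw [e] at g1 g2 g3
  have rr : r ∉ U ∪ P0.erase r := by simp [rU]
  let C : Cx G D :=
    { U := U, P := P0.erase r, F := F, 𝒦 := 𝒦, cq := cq, hU := hq
      sub := fun K k v p => ⟨(mU v).2 ⟨K, k, p⟩,
        dj _ (hq v ((mU v).2 ⟨K, k, p⟩)).1 K k v (hq v ((mU v).2 ⟨K, k, p⟩)).2 p⟩
      ok := fun K k => ⟨f1 K ((mK K).1 k).1 ((mK K).1 k).2, fun w p =>
        (card_le_card (sdiff_subset_sdiff Subset.rfl fun v e =>
          mem_union_left _ ((mU v).2 ⟨K, k, e⟩))).trans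
          (out_le h.deg ((mK K).1 k).1 ((mK K).1 k).2 (mem_inter.1 p).1),
        fun w p w' p' z a b => rs8 h hD ((mK K).1 k).1 ((mK K).1 k).2
          (fun t => (mem_sdiff.1 a).2 (mem_union_left _ ((mU z).2 ⟨K, k, t⟩)))
          (mem_inter.1 p).1 (mem_inter.1 p').1 (mem_nb.1 (mem_sdiff.1 a).1).symm
          (mem_nb.1 (mem_sdiff.1 b).1).symm⟩
      min := fun g a b c => less r hr g ⟨a, b, c⟩ }
  have ex : ∀ K, ∃ d : Dat V, K ∈ 𝒦 → (C.fr K).Inv D d (Function.update g r D) ∧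
      (C.fr K).RootK D d (Function.update g r D) := fun K => by
    by_cases k : K ∈ 𝒦
    · exact (Fr.root2 (C.ok K k) (valid_hole (g3 K k))).imp fun d p _ => p
    · exact ⟨⟨∅, 0, ∅, fun _ => r, fun _ _ => 0⟩, fun p => absurd p k⟩
  choose dat hd using ex
  have fu : ∀ m, m ∉ U ∪ P0.erase r → m ≠ r → Function.update g r D m < D := fun m p n => by
    rw [Function.update_of_ne n]
    exact g1 m fun t => (mem_insert.1 t).elim n p
  refine ⟨C, { z := r, q := r, f := Function.update g r D, dat := dat, real := rr, rpar := rr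
               hole := Function.update_self .., prop := fun a b p q t => ?_, full := fu
               par_ne := fun u p _ n => ?_, inv := fun K k => (hd K k).1
               p5 := fun _ _ _ _ t => absurd t G.irrefl },
    ⟨rfl, fun K k => (hd K k).2⟩, fun v => ?_⟩
  · have h1 := fu a p
    have h2 := fu b q
    have h3 := fun x y => g2 a b (fun t => (mem_insert.1 t).elim x p)
      (fun t => (mem_insert.1 t).elim y q) t
    have := t.ne
    simp only [Function.update_apply] at h1 h2 ⊢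
    split_ifs at h1 h2 ⊢ <;> grind
  · have := fu u p n
    rw [Function.update_self]
    omega
  · show v ∈ U ↔ _
    simp only [mU, mK, and_assoc]

end Pool.Agent.Lib.MP_12eaff_co.Acc2
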