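import Pool.Agent.Lib.MP_12eaff_co.Acc2.Defs

set_option autoImplicit false
set_option linter.unusedSectionVars false

namespace Pool.Agent.Lib.MP_12eaff_co.Acc2

open Finset
open scoped Classical

/-- The front of one clique: members and their slots. -/
structure Fr (V : Type) where
  F : Finset V
  sl : V → Finset V

/-- The data of one clique: heavy colours, hard colour (none if `≥ D`), rooted members, holders,
and pins (`pin z w` for the slot `z` of `w`, blank is `D + 1`). -/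
structure Dat (V : Type) where
  A : Finset ℕ
  η : ℕ
  Rt : Finset V
  hd : ℕ → V
  pin : V → V → ℕ

namespace Fr

variable {V : Type} [Fintype V] (X : Fr V) (D : ℕ)

structure OK : Prop where
  card : X.F.card = 13
  two : ∀ w ∈ X.F, (X.sl w).card ≤ 2
  dis : ∀ w ∈ X.F, ∀ w' ∈ X.F, ∀ z, z ∈ X.sl w → z ∈ X.sl w' → w = w'

def See (f : V → ℕ) (w : V) (y : ℕ) : Prop := ∃ z ∈ X.sl w, f z = y

def Mono (f : V → ℕ) (w : V) (y : ℕ) : Prop :=
  ∃ z ∈ X.sl w, ∃ z' ∈ X.sl w, z ≠ z' ∧ f z = y ∧ f z' = y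

structure Valid (f : V → ℕ) : Prop where
  nA : ∀ y < D, ∃ w ∈ X.F, ¬ X.See f w y
  nB : ∀ y < D, ∀ z < D, y ≠ z →
    (X.F.filter fun w => X.See f w y ∧ X.See f w z).card + 2 ≤ X.F.card
  mo : ∀ y < D, (X.F.filter fun w => X.Mono f w y).card ≤ 10

/-- Members outside `Rt` that miss `y`. -/
noncomputable def Ns (Rt : Finset V) (f : V → ℕ) (y : ℕ) : Finset V :=
  (X.F \ Rt).filter fun w => ¬ X.See f w y

/-- The safe level on the members that are not rooted. -/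
structure Soft (d : Dat V) (f : V → ℕ) : Prop where
  s1 : ∀ y < D, y ∉ d.A → 3 ≤ (X.Ns d.Rt f y).card
  s2 : ∀ y < D, ∀ z < D, y ∉ d.A → z ∉ d.A → y ≠ z →
    6 ≤ ((X.F \ d.Rt).filter fun w => ¬ (X.See f w y ∧ X.See f w z)).card
  s3 : ∀ y < D, y ≠ d.η → ((X.F \ d.Rt).filter fun w => X.Mono f w y).card ≤ 5

structure Inv (d : Dat V) (f : V → ℕ) : Prop where
  lt : ∀ a ∈ d.A, a < D
  hard : d.η < D → d.A = {d.η}
  sub : d.Rt ⊆ X.F
  r3 : d.Rt.card ≤ 3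
  p1 : ∀ z w, d.pin z w = D + 1 ∨
    w ∈ d.Rt ∧ z ∈ X.sl w ∧ d.pin z w ∈ d.A ∧ f z ≠ d.pin z w
  p2 : ∀ a ∈ d.A, d.hd a ∈ d.Rt ∧ ∀ z ∈ X.sl (d.hd a), d.pin z (d.hd a) = a
  inj : ∀ a ∈ d.A, ∀ b ∈ d.A, d.hd a = d.hd b → a = b
  p3 : d.η < D → d.Rt.card = 3 ∧
    ∀ w ∈ d.Rt, (X.sl w).card < 2 ∨ ∃ z ∈ X.sl w, d.pin z w = d.η
  nh : D ≤ d.η → ∀ w ∈ d.Rt, ∃ a ∈ d.A, d.hd a = w
  soft : X.Soft D d f

/-- Pinned ports. -/
noncomputable def pins (d : Dat V) : Finset (V × V) := univ.filter fun p => d.pin p.1 p.2 < D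

/-- `w` may become the holder of `a`. -/
def Allow (d : Dat V) (f : V → ℕ) (a : ℕ) (w : V) : Prop :=
  ∀ j < D, j ∉ d.A → X.See f (d.hd a) j → w ∈ X.Ns d.Rt f j → 4 ≤ (X.Ns d.Rt f j).card

end Fr

/-- The data after a passage with exit `e` at the member `w`, colour `a`. -/
structure Dat.Step {V : Type} (D : ℕ) (d d' : Dat V) (w e : V) (a : ℕ) : Prop where
  A : d'.A = d.A
  η : d'.η = d.η
  own : d'.pin e w = a
  new : ∀ z m, d'.pin z m = D + 1 ∨ d'.pin z m = d.pin z m ∨ m = w ∧ d'.pin z m = a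

end Pool.Agent.Lib.MP_12eaff_co.Acc2
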