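import Pool.Agent.Lib.MP_12eaff_co.F.Base
import Pool.Agent.Lib.MP_12eaff_co.F.Cnt
import Pool.Agent.Lib.MP_12eaff_co.Red

set_option autoImplicit false
set_option linter.unusedSectionVars false

namespace Pool.Agent.Lib.MP_12eaff_co.Acc2

open Finset Pool.Agent.Lib.MP_12eaff_co.BK
open scoped Classical

variable {D c B : ℕ} {V : Type} [Fintype V]

theorem no_MC (u : UThm D c B) (h1 : 1 ≤ c) (h2 : 5 * c + 1 ≤ B) (hD : 8 ≤ D) (sel : Sel D)
    (G : SimpleGraph V) : ¬ MC G D := fun h => by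
  obtain ⟨C, s0, r, hU⟩ := base h hD sel
  obtain ⟨ι, mb, cl, E, pf, hcl, hp⟩ := u V G C.U C.P h hU
  obtain ⟨T, q, t1, t2, t3, t4, t5⟩ := C.kside h.deg r mb cl hcl E pf h1 h2
  exact absurd (hp T q t1 t2 t3 t4) (not_lt.2 t5)

/-- From one number of colours to all larger degrees. -/
theorem bk_from (u : UThm D c B) (h1 : 1 ≤ c) (h2 : 5 * c + 1 ≤ B) (hD : 8 ≤ D) (sel : Sel D)
    (G : SimpleGraph V) [DecidableRel G.Adj] (h : D + 1 ≤ G.maxDegree) (hc : G.CliqueFree G.maxDegree) :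
    G.Colorable (G.maxDegree - 1) :=
  St.final (s := 0) (w := D) (by omega) (St.of_MC (no_MC u h1 h2 hD sel)) G h hc

end Pool.Agent.Lib.MP_12eaff_co.Acc2
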