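import Pool.Agent.Lib.MP_12eaff_co.Acc2.PG

set_option autoImplicit false
set_option linter.unusedSectionVars false

namespace Pool.Agent.Lib.MP_12eaff_co.Acc2

open Finset Pool.Agent.Lib.MP_12eaff_co.BK
open scoped Classical

variable {V : Type} [Fintype V] {G : SimpleGraph V} {D : ℕ}

namespace Tr

variable (T : Tr G D)

/-- Port tickets. -/
noncomputable def Tix : Finset (V × ℕ) :=
  (T.R ×ˢ range D).filter fun a => ∃ z ∈ T.R, T.Port z a.1 a.2

/-- The vertex has an internal child. -/
def Clm (e : V) : Prop := ∃ x ∈ T.ch e, (T.ch x).Nonempty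

/-- Units that the clique side may use at `e`: the blank bonus and one unit per hidden port. -/
noncomputable def gain (e : V) : ℕ :=
  (if T.Bd e = ∅ then 1 else 0) + if T.Clm e then (T.Bd e ∩ T.Dm).card else 0

/-- Real vertices that are not visited because the owner of their cluster protects them. -/
noncomputable def Late {ι : Type} (mb : ι → V → Prop) (cl : V → ι) (q : ι → V)
    (E : V → V → V → Prop) : Finset V :=
  univ.filter fun e => e ∉ T.Dm ∧ e ∉ T.R ∧ q (cl e) ∈ T.R ∧ mb (cl e) (q (cl e)) ∧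
    ∃ z ∈ T.R, ¬ E (q (cl e)) z e

/-- The eligibility rule read on the tree. -/
def El (E : V × V × (V → ℕ) → ℕ → V × V × (V → ℕ) → ℕ → V → Prop) (a v u : V) : Prop :=
  E (a, T.p a, T.col a) (T.d a) (v, T.p v, T.col v) (T.d v) u

/-- What the clique side may spend. -/
noncomputable def Gain (B : ℕ) (L : Finset V) : ℕ :=
  ∑ e ∈ T.R, (T.gain e + B * (T.CX e).card) + ∑ e ∈ L, (nb G e ∩ T.Dm).card

/-- What the clique side has to pay. -/
noncomputable def Cost (c : ℕ) : ℕ := c * T.Tix.card + ∑ v ∈ T.R, (T.Dr v ∩ T.Dm).card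

end Tr

/-- The account of the graph without its `D`-cliques: a ticket costs `c`, a unique port costs one,
a passage child gives `B`, every port of a late vertex gives one. -/
def UThm (D c B : ℕ) : Prop :=
  ∀ (V : Type) [Fintype V] (G : SimpleGraph V) (U P : Finset V), MC G D →
    (∀ v, v ∈ U ↔ ∃ K, IsClq G K ∧ K.card = D ∧ v ∈ K) →
    ∃ (ι : Type) (mb : ι → PV V → Prop) (cl : PV V → ι)
      (E : PV V × PV V × (PV V → ℕ) → ℕ → PV V × PV V × (PV V → ℕ) → ℕ → PV V → Prop)
      (pf : PV V → PV V → ℕ), (∀ u, mb (cl u) u) ∧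
      ∀ (T : Tr (PG G U P) D) (q : ι → PV V), IsB T → T.Dm = PD U P → T.S2 = ∅ →
        Own T mb cl q (T.El E) pf → T.Gain B (T.Late mb cl q (T.El E)) < T.Cost c

end Pool.Agent.Lib.MP_12eaff_co.Acc2
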