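import Pool.Agent.Lib.MP_12eaff_co.F.L1
import Pool.Agent.Lib.MP_12eaff_co.F.L2
import Pool.Agent.Lib.MP_12eaff_co.F.L5

set_option autoImplicit false
set_option linter.unusedSectionVars false

namespace Pool.Agent.Lib.MP_12eaff_co.Acc2

open Finset
open scoped Classical

namespace Fr

variable {V : Type} [Fintype V] (X : Fr V) (D : ℕ) (d : Dat V) (f0 : V → ℕ) (W : Finset V)

/-- A state with the hole `e` that shows the guard `y`; changed slots give claims. -/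
structure Grd (a : ℕ) (w e : V) (g : V → ℕ) (y : ℕ) : Prop where
  inv : X.Inv D d g
  hz : D ≤ g e
  lt : ∀ u ∈ X.F, ∀ z ∈ X.sl u, z ≠ e → g z < D
  ne : y ≠ a
  yl : y < D
  bad : ¬ X.Soft D d (Function.update g e y)
  ch : ∀ u ∈ X.F, u ∉ d.Rt → ∀ z ∈ X.sl u, g z < D → g z ≠ a → g z ≠ f0 z → u ∈ W

/-- What the tree gives at an entry `z` of colour `a` in the state `f`. -/
structure Orc (f : V → ℕ) (z : V) (a : ℕ) : Prop where
  inv : X.Inv D d f
  hz : D ≤ f z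
  st : ∀ u ∈ X.F, ∀ x ∈ X.sl u, D ≤ d.pin x u → f x = a → f0 x ≠ a → u ∈ W
  ex : ∀ w ∈ X.F, ∀ e ∈ X.sl w, D ≤ d.pin e w → f e = a → f0 e = a →
    (∃ d', X.Inv D d' (shift D f z e) ∧ Dat.Step D d d' w e a) →
      w ∈ W ∨ ∃ g y, X.Grd D d f0 W a w e g y

variable {X D d f0 W} {f g : V → ℕ} {z w e q : V} {a y : ℕ}

theorem Inv.free (h : X.Inv D d f) (n : w ∉ d.Rt) (x : V) : D ≤ d.pin x w := by
  rcases h.p1 x w with k | k
  exacts [by omega, absurd k.1 n]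

theorem Orc.grd (ok : X.OK) (h : X.Orc D d f0 W f z a) (ha : a ∈ d.A)
    (all : ∀ u ∈ X.F, u ∉ d.Rt → X.See f u a) (hw : w ∈ X.F) (he : e ∈ X.sl w)
    (k : X.Grd D d f0 W a w e g y) : 4 ≤ W.card ∨ y ∉ d.A ∧ (X.Ns d.Rt g y).card ≤ 3 := by
  have c := L1.card_soft ok h.inv
  have r := h.inv.r3
  have key : ∀ u ∈ X.F \ d.Rt, ¬ X.See g u a → u ≠ w → u ∈ W := fun u hu n ne => by
    obtain ⟨u1, u2⟩ := mem_sdiff.1 hu
    obtain ⟨x, x1, x2⟩ := all u u1 u2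
    by_cases j : f0 x = a
    · have : g x ≠ a := fun i => n ⟨x, x1, i⟩
      exact k.ch u u1 u2 x x1 (k.lt u u1 x x1 fun i => ne (ok.dis u u1 w hw x x1 (i ▸ he))) this
        (j ▸ this)
    · exact h.st u u1 x x1 (h.inv.free u2 x) x2 j
  rcases bad_cases ok k.inv.soft hw he k.bad with b | ⟨j, jl, b1, b2, b3, b4, b5⟩ | ⟨b1, b2⟩
  · exact .inr ⟨b.1, b.2.2⟩
  · have s := card_filter_add_card_filter_not (s := X.F \ d.Rt)
      fun u => X.See g u y ∧ X.See g u j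
    refine .inl (le_trans (by omega) (card_le_card (s := (X.F \ d.Rt).filter
      fun u => X.See g u y ∧ X.See g u j) fun u hu => ?_))
    obtain ⟨u1, u2, u3⟩ := mem_filter.1 hu
    exact key u u1 (fun i => (see3 ok (mem_sdiff.1 u1).1 u2 u3 i b3).elim
      (fun i => b1 (i ▸ ha)) fun i => b2 (i ▸ ha)) fun i =>
        b3 (see_hole ok hw he k.hz k.yl jl (i ▸ u2) (i ▸ u3))
  · have : ((X.F \ d.Rt).filter fun u => X.Mono g u y).card ≤ W.card + 1 :=
      card_ins fun u hu ne => key u (mem_filter.1 hu).1 (fun i =>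
        k.ne (mono_see ok (mem_sdiff.1 (mem_filter.1 hu).1).1 (mem_filter.1 hu).2 i).symm) ne
    exact .inl (by omega)

/-- Members that see the guard colour only now. -/
theorem Grd.new (k : X.Grd D d f0 W a w e g y) :
    (X.Ns d.Rt f0 y).card ≤ W.card + (X.Ns d.Rt g y).card := by
  refine le_trans (card_le_card fun u hu => mem_union.2 (by_contra fun n => ?_)) (card_union_le _ _)
  obtain ⟨⟨u1, u2⟩, u3⟩ := L1.mem_ns.1 hu
  obtain ⟨x, x1, x2⟩ : X.See g u y := by_contra fun i => n (.inr (L1.mem_ns.2 ⟨⟨u1, u2⟩, i⟩))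
  exact n (.inl (k.ch u u1 u2 x x1 (x2 ▸ k.yl) (x2 ▸ k.ne) fun i => u3 ⟨x, x1, i ▸ x2⟩))

/-- An allowed member that sees `a` once. -/
theorem Orc.one (ok : X.OK) (h : X.Orc D d f0 W f z a) (ha : a ∈ d.A) (hs : z ∈ X.sl (d.hd a))
    (hw : w ∈ X.F) (nh : ∀ b ∈ d.A, w ≠ d.hd b) (se : X.See f w a) (nm : ¬ X.Mono f w a)
    (al : X.Allow D d f a w) (fr : ∀ x ∈ X.sl w, f x = a → D ≤ d.pin x w) :
    w ∈ W ∨ ∃ e ∈ X.sl w, ∃ g y, X.Grd D d f0 W a w e g y := by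
  obtain ⟨e, e1, e2⟩ := se
  by_cases j : f0 e = a
  · exact (h.ex w hw e e1 (fr e e1 e2) e2 j
      (passA ok h.inv ha hs h.hz hw nh e1 e2 nm al)).imp_right fun k => ⟨e, e1, k⟩
  · exact .inl (h.st w hw e e1 (fr e e1 e2) e2 j)

theorem Inv.nh' (h : X.Inv D d f) (n : w ∉ d.Rt) : ∀ b ∈ d.A, w ≠ d.hd b :=
  fun b hb e => n (e ▸ (h.p2 b hb).1)

/-- One heavy colour, entry at the holder. -/
theorem Orc.single (ok : X.OK) (h : X.Orc D d f0 W f z a) (ha : d.A = {a})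
    (hs : z ∈ X.sl (d.hd a)) (all : ∀ u ∈ X.F, (∀ b ∈ d.A, u ≠ d.hd b) → X.See f u a)
    (h5 : ∀ y < D, y ∉ d.A → 5 ≤ (X.Ns d.Rt f0 y).card) : 2 ≤ W.card := by
  have ha' : a ∈ d.A := ha ▸ mem_singleton_self a
  by_contra n
  refine n ((exits ok h.inv ha hs h.hz).trans (card_le_card fun w hw => ?_))
  obtain ⟨w1, w2, w3, w4⟩ := mem_filter.1 hw
  have nh : ∀ b ∈ d.A, w ≠ d.hd b := fun b hb => by
    rw [ha, mem_singleton] at hb; rw [hb]; exact w2
  refine (h.one ok ha' hs w1 nh (all w w1 nh) w3 w4 fun x _ c => ?_).resolve_right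
    fun ⟨e, e1, g, y, k⟩ => ?_
  · rcases h.inv.p1 x w with i | i
    exacts [by omega, absurd (c.trans (mem_singleton.1 (ha ▸ i.2.2.1)).symm) i.2.2.2]
  · have := k.new
    rcases h.grd ok ha' (fun u a b => all u a (h.inv.nh' b)) w1 e1 k with i | i
    · omega
    · have := h5 y k.yl i.1
      omega

/-- Two heavy colours. -/
theorem Orc.pair (ok : X.OK) (h : X.Orc D d f0 W f z a) (ha : a ∈ d.A) {b c : ℕ} (bc : b ≠ c)
    (hA : d.A = {b, c}) (hs : z ∈ X.sl (d.hd a))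
    (all : ∀ u ∈ X.F, (∀ b ∈ d.A, u ≠ d.hd b) → X.See f u a)
    (h7 : 7 ≤ ((X.F \ d.Rt).filter fun w => X.See f0 w b ∧ X.See f0 w c).card) : 4 ≤ W.card := by
  by_contra n
  have s : ((X.F \ d.Rt).filter fun w => X.See f0 w b ∧ X.See f0 w c) ⊆
      W ∪ X.F.filter fun w => ¬ X.Allow D d f a w := fun w hw => by
    obtain ⟨w1, w2, w3⟩ := mem_filter.1 hw
    obtain ⟨w4, w5⟩ := mem_sdiff.1 w1
    by_cases al : X.Allow D d f a w
    swap
    · exact mem_union_right _ (mem_filter.2 ⟨w4, al⟩)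
    refine mem_union_left _ ?_
    by_cases m : X.Mono f w a
    · obtain ⟨x, x1, x2⟩ : ∃ x ∈ X.sl w, f0 x ≠ a := by
        by_contra! i
        obtain ⟨x, x1, x2⟩ := w2
        obtain ⟨x', x3, x4⟩ := w3
        exact bc (by rw [← x2, ← x4, i x x1, i x' x3])
      exact h.st w w4 x x1 (h.inv.free w5 x) (mono_see ok w4 m ⟨x, x1, rfl⟩) x2
    refine (h.one ok ha hs w4 (h.inv.nh' w5) (all w w4 (h.inv.nh' w5)) m al
      fun x _ _ => h.inv.free w5 x).resolve_right fun ⟨e, e1, g, y, k⟩ => ?_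
    have := k.new
    rcases h.grd ok ha (fun u a b => all u a (h.inv.nh' b)) w4 e1 k with i | i
    · omega
    · have : ((X.F \ d.Rt).filter fun w => X.See f0 w b ∧ X.See f0 w c) ⊆ X.Ns d.Rt f0 y :=
        fun u hu => by
          obtain ⟨u1, u2, u3⟩ := mem_filter.1 hu
          refine L1.mem_ns.2 ⟨mem_sdiff.1 u1, fun j => i.1 ?_⟩
          rcases see3 ok (mem_sdiff.1 u1).1 u2 u3 j bc with rfl | rfl <;> simp [hA]
      have := card_le_card this
      omega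
  have := (card_le_card s).trans (card_union_le _ _)
  have := allow3 ok h.inv ha hs h.hz
  omega

/-- Entry at a designated slot. -/
theorem Orc.mono (ok : X.OK) (h : X.Orc D d f0 W f z d.η) (hη : d.η < D) (hp : d.pin z q = d.η)
    (nq : q ≠ d.hd d.η) (sq : X.See f q d.η)
    (h10 : 10 ≤ ((X.F \ d.Rt).filter fun w => X.Mono f w d.η).card) : 4 ≤ W.card := by
  have c := L1.card_soft ok h.inv
  have r := (h.inv.p3 hη).1
  have ha : d.η ∈ d.A := h.inv.hard hη ▸ mem_singleton_self _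
  have all : ∀ u ∈ X.F \ d.Rt, X.Mono f u d.η := fun u hu => by
    rw [← eq_of_subset_of_card_le (filter_subset (fun w => X.Mono f w d.η) (X.F \ d.Rt))
      (by omega)] at hu
    exact (mem_filter.1 hu).2
  by_contra n
  refine n (le_trans (by omega) (card_le_card (s := X.F \ d.Rt) fun w hw => ?_))
  obtain ⟨w1, w2⟩ := mem_sdiff.1 hw
  obtain ⟨e, e1, e2⟩ := (all w hw).see
  by_cases j : f0 e = d.η
  swap
  · exact h.st w w1 e e1 (h.inv.free w2 e) e2 j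
  refine (h.ex w w1 e e1 (h.inv.free w2 e) e2 j
    (passM ok h.inv hη hp nq h.hz sq w1 w2 (all w hw) e1)).resolve_right fun ⟨g, y, k⟩ => ?_
  rcases h.grd ok ha (fun u a b => (all u (mem_sdiff.2 ⟨a, b⟩)).see) w1 e1 k with i | i
  · omega
  · have : X.F \ d.Rt ⊆ W ∪ X.Ns d.Rt g y := fun u hu => mem_union.2 (by_contra fun m => by
      obtain ⟨u1, u2⟩ := mem_sdiff.1 hu
      obtain ⟨x, x1, x2⟩ : X.See g u y := by_contra fun i => m (.inr (L1.mem_ns.2 ⟨⟨u1, u2⟩, i⟩))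
      by_cases t : f0 x = y
      · exact m (.inl (h.st u u1 x x1 (h.inv.free u2 x) (mono_see ok u1 (all u hu) ⟨x, x1, rfl⟩)
          (t ▸ k.ne)))
      · exact m (.inl (k.ch u u1 u2 x x1 (x2 ▸ k.yl) (x2 ▸ k.ne) fun i => t (i ▸ x2))))
    have := (card_le_card this).trans (card_union_le _ _)
    omega

/-- The facts about the root data. -/
def RootK (X : Fr V) (D : ℕ) (d : Dat V) (f : V → ℕ) : Prop := (pins D d).card ≤ 4 ∧
  (d.A.card ≤ 1 ∧ (d.A.Nonempty → ∀ y < D, y ∉ d.A → 5 ≤ (X.Ns d.Rt f y).card) ∨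
    ∃ a b, a ≠ b ∧ d.A = {a, b} ∧
      7 ≤ ((X.F \ d.Rt).filter fun w => X.See f w a ∧ X.See f w b).card)

/-- Without passages the entries are paid by claims. -/
theorem np_main (ok : X.OK) (r : X.RootK D d f0) {En : Finset (V × V)}
    (h : ∀ p ∈ En, d.pin p.1 p.2 < D ∧ ∃ f, X.Orc D d f0 W f p.1 (d.pin p.1 p.2) ∧
      ¬ X.Valid D (Function.update f p.1 (d.pin p.1 p.2))) : En.card ≤ W.card := by
  have e4 : En.card ≤ 4 :=
    (card_le_card fun p k => mem_filter.2 ⟨mem_univ _, (h p k).1⟩).trans r.1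
  by_contra n
  have key : ∀ p ∈ En, d.pin p.1 p.2 ∈ d.A ∧ p.2 = d.hd (d.pin p.1 p.2) ∧ p.1 ∈ X.sl p.2 ∧
      p.2 ∈ X.F ∧ ∃ f, X.Orc D d f0 W f p.1 (d.pin p.1 p.2) ∧
        ∀ u ∈ X.F, (∀ b ∈ d.A, u ≠ d.hd b) → X.See f u (d.pin p.1 p.2) := fun p k => by
    obtain ⟨l, f, o, v⟩ := h p k
    have i := (o.inv.p1 p.1 p.2).resolve_left (by omega)
    rcases forced ok o.inv l rfl o.hz v with j | ⟨j1, j2, j3, j4⟩
    · exact ⟨i.2.2.1, j.1, i.2.1, o.inv.sub i.1, f, o, j.2⟩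
    · rw [j1] at o l j2 j3 j4
      have := o.mono ok l j1 j2 j3 j4
      omega
  obtain ⟨p, hp⟩ := card_pos.1 (by omega : 0 < En.card)
  obtain ⟨k1, k2, k3, k4, f, o, k5⟩ := key p hp
  rcases r.2 with ⟨c, h5⟩ | ⟨b, c, bc, hA, h7⟩
  · have hA : d.A = {d.pin p.1 p.2} :=
      eq_singleton_iff_unique_mem.2 ⟨k1, fun x hx => card_le_one.1 c x hx _ k1⟩
    have := o.single ok hA (k2 ▸ k3) k5 (h5 ⟨_, k1⟩)
    have : En.card ≤ (X.sl p.2).card := card_le_card_of_injOn Prod.fst (fun x hx => ?_)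
      fun x hx y hy e => Prod.ext e ?_
    · have := ok.two _ k4
      omega
    · obtain ⟨j1, j2, j3, _⟩ := key x hx
      rw [k2, card_le_one.1 c _ k1 _ j1, ← j2]; exact j3
    · rw [(key x hx).2.1, (key y hy).2.1, card_le_one.1 c _ (key x hx).1 _ (key y hy).1]
  · have := o.pair ok k1 bc hA (k2 ▸ k3) k5 h7
    omega

end Fr

end Pool.Agent.Lib.MP_12eaff_co.Acc2
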