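import Pool.Agent.Lib.MP_12eaff_co.F.L6
import Pool.Agent.Lib.MP_12eaff_co.F.Ifc

set_option autoImplicit false
set_option linter.unusedSectionVars false

namespace Pool.Agent.Lib.MP_12eaff_co.Acc2

open Finset Pool.Agent.Lib.MP_12eaff_co.BK
open scoped Classical

variable {V : Type} [Fintype V] {G : SimpleGraph V} {D : ℕ}

/-- The front of the clique `K` when `W` is not coloured. -/
noncomputable def frK (G : SimpleGraph V) (F W K : Finset V) : Fr V := ⟨K ∩ F, fun w => nb G w \ W⟩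

/-- Cliques, fronts, parked holes; no valid colouring fills all other vertices. -/
structure Cx (G : SimpleGraph V) (D : ℕ) where
  U : Finset V
  P : Finset V
  F : Finset V
  𝒦 : Finset (Finset V)
  cq : V → Finset V
  hU : ∀ v ∈ U, cq v ∈ 𝒦 ∧ v ∈ cq v
  sub : ∀ K ∈ 𝒦, ∀ v ∈ K, v ∈ U ∧ cq v = K
  ok : ∀ K ∈ 𝒦, (frK G F (U ∪ P) K).OK
  min : ∀ g : V → ℕ, (∀ a, a ∉ U ∪ P → g a < D) →
    (∀ a b, a ∉ U ∪ P → b ∉ U ∪ P → G.Adj a b → g a ≠ g b) →
    ¬ ∀ K ∈ 𝒦, (frK G F (U ∪ P) K).Valid D g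

namespace Cx

variable (C : Cx G D)

noncomputable abbrev fr (K : Finset V) : Fr V := frK G C.F (C.U ∪ C.P) K

theorem mem_sl {K : Finset V} {w z : V} : z ∈ (C.fr K).sl w ↔ G.Adj w z ∧ z ∉ C.U ∪ C.P := by
  simp only [frK, mem_sdiff, mem_nb]

theorem F_sub {K : Finset V} {w : V} (h : w ∈ (C.fr K).F) : w ∈ K := (mem_inter.1 h).1

/-- States. -/
structure St where
  z : V
  q : V
  f : V → ℕ
  dat : Finset V → Dat V
  real : z ∉ C.U ∪ C.P
  rpar : q ∉ C.U ∪ C.P
  hole : f z = D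
  prop : ∀ a b, a ∉ C.U ∪ C.P → b ∉ C.U ∪ C.P → G.Adj a b → f a ≠ f b
  full : ∀ m, m ∉ C.U ∪ C.P → m ≠ z → f m < D
  par_ne : ∀ u, u ∉ C.U ∪ C.P → G.Adj z u → u ≠ q → f u ≠ f q
  inv : ∀ K ∈ C.𝒦, (C.fr K).Inv D (dat K) f
  p5 : ∀ K ∈ C.𝒦, ∀ w, (dat K).pin z w < D → G.Adj z q → (dat K).pin z w ≠ f q

variable {C}

namespace St

variable (s : C.St)

/-- The pin of the port from `a` to `m`. -/
noncomputable def pin (a m : V) : ℕ := if m ∈ C.U then (s.dat (C.cq m)).pin a m else D + 1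

/-- The colour `y` at the hole breaks the safe level of the clique of `m`. -/
def Bad (m : V) (y : ℕ) : Prop := m ∈ C.U ∧ m ∉ (s.dat (C.cq m)).Rt ∧ y < D ∧ y ≠ s.f s.q ∧
  ¬ (C.fr (C.cq m)).Soft D (s.dat (C.cq m)) (Function.update s.f s.z y)

/-- Displayed colours. -/
noncomputable def port (a m : V) : ℕ :=
  if h : a = s.z ∧ m ∈ C.F ∧ ∃ y, s.Bad m y then h.2.2.choose else s.pin a m

variable {s} {K : Finset V} {a m w e u : V} {y : ℕ}

theorem pin_K (hK : K ∈ C.𝒦) (hm : m ∈ K) : s.pin a m = (s.dat K).pin a m := by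
  rw [pin, if_pos (C.sub K hK m hm).1, (C.sub K hK m hm).2]

theorem pin_cases (s : C.St) (a m : V) : s.pin a m = D + 1 ∨ s.pin a m < D ∧ m ∈ C.U ∧
    m ∈ (s.dat (C.cq m)).Rt ∧ a ∈ (C.fr (C.cq m)).sl m ∧ s.pin a m ∈ (s.dat (C.cq m)).A ∧
      s.f a ≠ s.pin a m := by
  by_cases k : m ∈ C.U
  · have i := s.inv _ (C.hU m k).1
    rw [pin, if_pos k]
    rcases i.p1 a m with e | ⟨e1, e2, e3, e4⟩
    exacts [.inl e, .inr ⟨i.lt _ e3, k, e1, e2, e3, e4⟩]
  · exact .inl (if_neg k)

theorem port_cases (s : C.St) (a m : V) :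
    s.port a m = s.pin a m ∨ a = s.z ∧ s.pin a m = D + 1 ∧ s.Bad m (s.port a m) := by
  unfold port
  split_ifs with h
  · have b := h.2.2.choose_spec
    exact .inr ⟨h.1, (s.pin_cases a m).resolve_right fun k => b.2.1 k.2.2.1, b⟩
  · exact .inl rfl

theorem port_pin (h : s.pin a m < D) : s.port a m = s.pin a m :=
  (s.port_cases a m).resolve_right fun k => by omega

theorem port_test (h : a ≠ s.z) : s.port a m = s.pin a m :=
  (s.port_cases a m).resolve_right fun k => h k.1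

theorem dat_lt (hK : K ∈ C.𝒦) (h : (s.dat K).pin a m < D) :
    m ∈ K ∧ m ∈ (C.fr K).F ∧ G.Adj m a ∧ a ∉ C.U ∪ C.P := by
  rcases (s.inv K hK).p1 a m with e | ⟨e1, e2, _⟩
  · omega
  · have := (s.inv K hK).sub e1
    exact ⟨C.F_sub this, this, C.mem_sl.1 e2⟩

/-- A colour that no port of the hole into `K` shows may be taken. -/
theorem inv_take (hK : K ∈ C.𝒦) (l : s.f u < D) (n : s.f u ≠ s.f s.q)
    (h : ∀ m ∈ K, G.Adj s.z m → s.port s.z m ≠ s.f u) :
    (C.fr K).Inv D (s.dat K) (shift D s.f s.z u) := by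
  have i := s.inv K hK
  refine Fr.inv_move i l (fun w e => ?_) (by_contra fun b => ?_)
  · obtain ⟨a1, _, a3, _⟩ := dat_lt hK (e ▸ l : (s.dat K).pin s.z w < D)
    refine h w a1 a3.symm ?_
    rw [port_pin (by rw [pin_K hK a1, e]; exact l), pin_K hK a1, e]
  · obtain ⟨w, w1, w2, w3⟩ : ∃ w ∈ (C.fr K).F, w ∉ (s.dat K).Rt ∧ s.z ∈ (C.fr K).sl w := by
      by_contra! k
      exact b (Fr.soft_off i.soft k _)
    obtain ⟨k1, k2⟩ := C.sub K hK w (C.F_sub w1)
    have c : s.z = s.z ∧ w ∈ C.F ∧ ∃ y, s.Bad w y :=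
      ⟨rfl, (mem_inter.1 w1).2, _, k1, k2 ▸ w2, l, n, k2 ▸ b⟩
    have d := c.2.2.choose_spec
    refine h w (C.F_sub w1) (C.mem_sl.1 w3).1.symm ?_
    rw [port, dif_pos c]
    exact Fr.bad_one (C.ok K hK) i s.hole.ge d.2.2.1 l (k2 ▸ d.2.2.2.2) b

/-- The hole takes the colour of `u`. -/
noncomputable def mk' (s : C.St) (u : V) (hu : u ∉ C.U ∪ C.P) (ne : u ≠ s.z)
    (uq : ∀ m, m ∉ C.U ∪ C.P → G.Adj s.z m → m ≠ u → s.f m ≠ s.f u) (dat : Finset V → Dat V)
    (inv : ∀ K ∈ C.𝒦, (C.fr K).Inv D (dat K) (shift D s.f s.z u))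
    (p5 : ∀ K ∈ C.𝒦, ∀ w, (dat K).pin u w < D → G.Adj u s.z → (dat K).pin u w ≠ s.f u) :
    C.St where
  z := u
  q := s.z
  f := shift D s.f s.z u
  dat := dat
  real := hu
  rpar := s.real
  hole := by simp [shift]
  prop a b p q e := by
    have l := s.full u hu ne
    have la := fun k => s.full a p k
    have lb := fun k => s.full b q k
    have := s.prop a b p q e
    have h1 := uq a p
    have h2 := uq b q
    have n := e.ne
    have e' := e.symm
    simp only [shift, Function.update_apply]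
    split_ifs <;> subst_vars <;> first | omega | tauto | grind
  full m p k := by
    have := s.full u hu ne
    have := s.full m p
    simp only [shift, Function.update_apply]
    split_ifs <;> grind
  par_ne m p e k := by
    have := s.prop u m hu p e
    have := e.ne
    simp only [shift, Function.update_apply]
    split_ifs <;> grind
  inv := inv
  p5 K hK w l e := by
    have := p5 K hK w l e
    rwa [shift, Function.update_of_ne ne.symm, Function.update_self]

/-- Real arcs. -/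
def Arc (s : C.St) (u : V) : Prop := u ∉ C.U ∪ C.P ∧ G.Adj s.z u ∧ u ≠ s.q ∧
  (∀ m, m ∉ C.U ∪ C.P → G.Adj s.z m → m ≠ u → s.f m ≠ s.f u) ∧
    ∀ m ∈ C.U, G.Adj s.z m → s.port s.z m ≠ s.f u

noncomputable def mv (s : C.St) (u : V) (h : s.Arc u) : C.St :=
  s.mk' u h.1 h.2.1.ne' h.2.2.2.1 s.dat
    (fun K hK => inv_take hK (s.full u h.1 h.2.1.ne') (s.par_ne u h.1 h.2.1 h.2.2.1)
      fun m k => h.2.2.2.2 m (C.sub K hK m k).1)
    fun K hK w l _ => by
      rcases (s.inv K hK).p1 u w with e | ⟨_, _, _, e⟩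
      exacts [by omega, e.symm]

/-- Passage through `K` with exit `e` at the member `w`. -/
structure Pass (s : C.St) (e : V) (t : C.St) (K : Finset V) (w : V) : Prop where
  hK : K ∈ C.𝒦
  hw : w ∈ (C.fr K).F
  he : e ∈ (C.fr K).sl w
  na : ¬ G.Adj s.z e
  np : s.f e ≠ s.f s.q
  z : t.z = e
  q : t.q = s.z
  f : t.f = shift D s.f s.z e
  off : ∀ K', K' ≠ K → t.dat K' = s.dat K'
  step : Dat.Step D (s.dat K) (t.dat K) w e (s.f e)

theorem pass_of (hK : K ∈ C.𝒦) (hw : w ∈ (C.fr K).F) (he : e ∈ (C.fr K).sl w) (l : s.f e < D)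
    (np : s.f e ≠ s.f s.q) (ms : ∀ m, m ∉ C.U ∪ C.P → G.Adj s.z m → s.f m ≠ s.f e)
    (mp : ∀ m ∈ C.U, m ∉ K → G.Adj s.z m → s.port s.z m ≠ s.f e) {d : Dat V}
    (i : (C.fr K).Inv D d (shift D s.f s.z e)) (st : Dat.Step D (s.dat K) d w e (s.f e)) :
    ∃ t, s.Pass e t K w := by
  have r := (C.mem_sl.1 he).2
  have na : ¬ G.Adj s.z e := fun k => ms e r k rfl
  refine ⟨s.mk' e r (fun k => by rw [k, s.hole] at l; omega) (fun m a b _ => ms m a b)
    (Function.update s.dat K d) (fun K' hK' => ?_) fun _ _ _ _ k => absurd k.symm na,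
    hK, hw, he, na, np, rfl, rfl, rfl, fun K' k => Function.update_of_ne k _ _, ?_⟩
  · by_cases k : K' = K
    · rw [k, Function.update_self]; exact i
    · rw [Function.update_of_ne k]
      exact inv_take hK' l np fun m a => mp m (C.sub K' hK' m a).1 fun b =>
        k ((C.sub K' hK' m a).2.symm.trans (C.sub K hK m b).2)
  · simpa only [mk', Function.update_self] using st

noncomputable def nx (s : C.St) (u : V) : C.St :=
  if h : s.Arc u then s.mv u h else if h : ∃ t K w, s.Pass u t K w then h.choose else s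

theorem nx_arc (h : s.Arc u) : s.nx u = s.mv u h := dif_pos h

theorem nx_pass (h : ∃ t K w, s.Pass u t K w) : ∃ K w, s.Pass u (s.nx u) K w := by
  have n : ¬ s.Arc u := fun k => by obtain ⟨_, _, _, p⟩ := h; exact p.na k.2.1
  rw [nx, dif_neg n, dif_pos h]
  exact h.choose_spec

/-- A colouring that avoids the pins of `K` and gains every colour at most twice is valid at
`K`. -/
theorem val (s : C.St) (hK : K ∈ C.𝒦) {g : V → ℕ}
    (av : ∀ a, ∀ m ∈ K, s.pin a m < D → g a ≠ s.pin a m) {A : Finset V}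
    (hA : ∀ a, a ∉ C.U ∪ C.P → (∃ m ∈ C.U, G.Adj a m) → g a ≠ s.f a → a ∈ A)
    (gn : ∀ κ < D, (A.filter fun a => g a = κ ∧ s.f a ≠ κ).card ≤ 2) : (C.fr K).Valid D g := by
  refine Fr.locV (C.ok K hK) (s.inv K hK) (fun w p a _ => ?_) fun κ l =>
    (card_le_card fun a k => ?_).trans (gn κ l)
  · rw [← pin_K hK (C.F_sub p)]; exact av a w (C.F_sub p)
  · obtain ⟨k1, k2⟩ := mem_filter.1 k
    obtain ⟨w, w1, w2⟩ := mem_biUnion.1 k1
    obtain ⟨w3, w4⟩ := C.mem_sl.1 w2
    exact mem_filter.2 ⟨hA a w4 ⟨w, (C.sub K hK w (C.F_sub w1)).1, w3.symm⟩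
      fun e => k2.2 (e ▸ k2.1), k2⟩

/-- A colour that the hole misses on real vertices and on the pins outside `K` is invalid at
`K`. -/
theorem fill (s : C.St) (l : y < D) (ms : ∀ m, m ∉ C.U ∪ C.P → G.Adj s.z m → s.f m ≠ y)
    (mp : ∀ m ∈ C.U, C.cq m ≠ K → s.pin s.z m ≠ y) :
    K ∈ C.𝒦 ∧ ¬ (C.fr K).Valid D (Function.update s.f s.z y) := by
  by_contra n
  refine C.min (Function.update s.f s.z y) (fun a p => ?_) (fun a b p q e => ?_) fun K' hK' => ?_
  · by_cases k : a = s.z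
    · rw [k, Function.update_self]; exact l
    · rw [Function.update_of_ne k]; exact s.full a p k
  · have := s.prop a b p q e
    have := ms a p
    have := ms b q
    have := e.symm
    have := e.ne
    simp only [Function.update_apply]
    split_ifs <;> grind
  · by_cases k : K' = K
    · exact by_contra fun b => n ⟨k ▸ hK', k ▸ b⟩
    · refine s.val hK' (fun a m p r => ?_) (A := {s.z}) (fun a _ _ e => mem_singleton.2 ?_)
        fun κ _ => (card_filter_le _ _).trans (by simp)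
      · by_cases c : a = s.z
        · rw [c, Function.update_self]
          exact (mp m (C.sub K' hK' m p).1 ((C.sub K' hK' m p).2.symm ▸ k)).symm
        · rw [Function.update_of_ne c]
          rcases s.pin_cases a m with e | e
          exacts [by omega, e.2.2.2.2.2]
      · by_contra c; exact e (Function.update_of_ne c _ _)

end St

variable (C)

/-- The rules. -/
noncomputable def rules : PRules G D C.U C.P C.St where
  hole := St.z
  par := St.q
  f := St.f
  port := St.port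
  X s := univ.filter fun u => ∃ t K w, s.Pass u t K w
  wt _ _ := 3
  nx := St.nx
  real := St.real
  rpar := St.rpar
  f_hole := St.hole
  prop := St.prop
  full := St.full
  port_ne s a m := by
    rcases s.port_cases a m with e | ⟨_, _, e⟩
    · rcases s.pin_cases a m with k | k <;> omega
    · exact e.2.2.1.ne
  port_ok s a m _ _ _ := by
    have := s.hole
    by_cases c : a = s.z
    · rcases s.port_cases a m with e | ⟨_, _, e⟩
      · rcases s.pin_cases a m with k | k <;> rw [c] at * <;> omega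
      · have := e.2.2.1; rw [c] at *; omega
    · have := s.full a ‹_› c
      rw [St.port_test c]
      rcases s.pin_cases a m with k | k
      exacts [by omega, k.2.2.2.2.2.symm]
  wt3 _ _ := le_rfl
  X_real s u k := by
    obtain ⟨_, _, _, p⟩ := (mem_filter.1 k).2
    exact ⟨(C.mem_sl.1 p.he).2, p.na, p.np⟩
  par_ne := St.par_ne
  own_par s m k _ a := by
    rcases s.port_cases s.z m with e | ⟨_, _, e⟩
    · have := s.full s.q s.rpar a.ne'
      rcases s.pin_cases s.z m with j | j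
      · omega
      · rw [e, St.pin, if_pos k] at *
        exact s.p5 _ (C.hU m k).1 m j.1 a
    · exact e.2.2.2.1
  nx_ok s u k := by
    rcases k with k | k
    · obtain ⟨_, _, p⟩ := St.nx_pass (mem_filter.1 k).2
      exact ⟨p.z, p.q, fun m _ => congrFun p.f m⟩
    · rw [St.nx_arc k]; exact ⟨rfl, rfl, fun _ _ => rfl⟩

/-- The root state. -/
def Root (s0 : C.St) : Prop := s0.q = s0.z ∧ ∀ K ∈ C.𝒦, (C.fr K).RootK D (s0.dat K) s0.f

theorem rel (s : C.St) : C.rules.Rel 2 s := fun g a b c d _ =>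
  C.min g a b fun K hK => s.val hK (fun z m p r => by
      obtain ⟨_, _, k1, k2⟩ := St.dat_lt hK (St.pin_K hK p ▸ r)
      exact St.port_pin r ▸ c z m k2 (C.sub K hK m p).1 k1.symm)
    (A := univ.filter fun a => a ∉ C.U ∪ C.P ∧ ∃ m ∈ C.U ∪ C.P, G.Adj a m)
    (fun a p ⟨m, q, r⟩ _ => mem_filter.2 ⟨mem_univ _, p, m, mem_union_left _ q, r⟩)
    fun κ l => by
      simp only [filter_filter, and_assoc]
      exact d κ l

end Cx

end Pool.Agent.Lib.MP_12eaff_co.Acc2
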