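import Pool.Agent.Lib.MP_12eaff_co.F.St

set_option autoImplicit false
set_option linter.unusedSectionVars false

namespace Pool.Agent.Lib.MP_12eaff_co.Acc2

open Finset Pool.Agent.Lib.MP_12eaff_co.BK PV Tr
open scoped Classical

variable {V : Type} [Fintype V] {G : SimpleGraph V} {D : ℕ}

/-- A hole with a blank neighbour sees every colour exactly once on the other neighbours. -/
theorem IsB.one_blank {T : Tr G D} (h : IsB T) (s2 : T.S2 = ∅) {e x y : V} (he : e ∈ T.R)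
    (ax : G.Adj e x) (bx : D < T.col e x) (ay : G.Adj e y) (ne : y ≠ x) :
    T.col e y < D ∧ Uq G (T.col e) e y := by
  by_contra n
  have dg := h.deg e (T.real e he)
  rw [s2, sdiff_empty] at dg
  have sub : range D ⊆ (((nb G e).erase x).erase y).image (T.col e) := fun κ k => by
    have l := mem_range.1 k
    obtain ⟨m, m1, m2⟩ := (h.hc1 he).sees l
    by_cases c : m = y
    · subst c
      obtain ⟨m', a, b, c⟩ : ∃ m', G.Adj e m' ∧ m' ≠ m ∧ T.col e m' = T.col e m := by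
        by_contra! j
        exact n ⟨m2 ▸ l, j⟩
      exact mem_image.2 ⟨m', mem_erase.2 ⟨b, mem_erase.2 ⟨fun j => by subst j; omega,
        mem_nb.2 a⟩⟩, c.trans m2⟩
    · exact mem_image.2 ⟨m, mem_erase.2 ⟨c, mem_erase.2 ⟨fun j => by subst j; omega,
        mem_nb.2 m1⟩⟩, m2⟩
  have a := (card_le_card sub).trans card_image_le
  have hy : y ∈ (nb G e).erase x := mem_erase.2 ⟨ne, mem_nb.2 ay⟩
  rw [card_range, card_erase_of_mem hy, card_erase_of_mem (mem_nb.2 ax)] at a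
  have := card_pos.2 ⟨y, hy⟩
  rw [card_erase_of_mem (mem_nb.2 ax)] at this
  omega

/-- Ports that are not unique are units. -/
theorem IsB.gain_ge {T : Tr G D} (h : IsB T) (s2 : T.S2 = ∅) {e : V} (he : e ∈ T.R)
    {Q : Finset V} (hQ : ∀ x ∈ Q, G.Adj e x ∧ x ∈ T.Dm ∧ x ∉ T.Dr e)
    (cl : ∀ x ∈ Q, T.Clm e ∨ D < T.col e x) : Q.card ≤ T.gain e := by
  rw [Tr.gain]
  by_cases b : ∃ x ∈ Q, D < T.col e x
  · obtain ⟨x, x1, x2⟩ := b
    have k := fun y a n => h.one_blank s2 he (hQ x x1).1 x2 (y := y) a n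
    have e0 : T.Bd e = ∅ := eq_empty_of_forall_notMem fun y hy => by
      obtain ⟨a, b, c⟩ := IsB.mem_Bd.1 hy
      exact b (k y a fun j => by subst j; omega).2
    have : Q ⊆ {x} := fun y hy => mem_singleton.2 (by_contra fun n => by
      obtain ⟨a, b, c⟩ := hQ y hy
      refine c (IsB.mem_Dr.2 ⟨⟨a, fun j => ?_, (k y a n).2⟩, fun j => O_real he j b, (k y a n).1⟩)
      by_cases r : e = T.r
      · rw [r, T.p_r] at j; exact T.real _ T.r_mem (j ▸ b)
      · exact T.real _ (T.p_mem e he r) (j ▸ b))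
    have := card_le_card this
    rw [if_pos e0, card_singleton] at *
    omega
  · rcases Q.eq_empty_or_nonempty with rfl | ⟨x, hx⟩
    · exact Nat.zero_le _
    rw [if_pos ((cl x hx).resolve_right fun j => b ⟨x, hx, j⟩)]
    refine le_trans (card_le_card fun y hy => ?_) (Nat.le_add_left _ _)
    obtain ⟨a, b', c⟩ := hQ y hy
    have l : T.col e y < D := by
      have := T.dm_ne e he y b'
      have : ¬ D < T.col e y := fun j => b ⟨y, hy, j⟩
      omega
    refine mem_inter.2 ⟨IsB.mem_Bd.2 ⟨a, fun u => c (IsB.mem_Dr.2 ⟨⟨a, fun j => ?_, u⟩,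
      fun j => O_real he j b', l⟩), l⟩, b'⟩
    by_cases r : e = T.r
    · rw [r, T.p_r] at j; exact T.real _ T.r_mem (j ▸ b')
    · exact T.real _ (T.p_mem e he r) (j ▸ b')

/-- A vertex above `v` whose new colour is not the colour of `v` has an internal child. -/
theorem Tr.clm_of {T : Tr G D} {e v : V} (h : T.Anc e v) (ne : e ≠ v) (n : T.c v ≠ T.col v e) :
    T.Clm e := by
  obtain ⟨x, x1, x2⟩ := h.child ne
  obtain ⟨y, y1, _⟩ := x2.child fun j => n (by rw [col_anc x1 x2, j])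
  exact ⟨x, x1, y, y1⟩

namespace Cx

variable {C : Cx G D}

/-- The tree with its states; `L` are the late vertices. -/
structure Tw (C : Cx G D) (s0 : C.St) (T : Tr (PG G C.U C.P) D) (st : PV V → C.St)
    (L : Finset (PV V)) : Prop where
  a : IsB T
  dm : T.Dm = PD C.U C.P
  s2 : T.S2 = ∅
  r : st T.r = s0
  z : ∀ v ∈ T.R, v = inl (st v).z ∧ T.p v = inl (st v).q ∧ T.col v = C.rules.col (st v)
  nx : ∀ v ∈ T.R, v ≠ T.r → (st v).dat = (st (T.p v)).dat ∨
    v ∉ T.O (T.p v) ∧ ∃ K w, (st (T.p v)).Pass v.fst (st v) K w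
  px : ∀ v ∈ T.R, v ≠ T.r → v ∉ T.O (T.p v) → ∃ K w, (st (T.p v)).Pass v.fst (st v) K w
  clo : ∀ v ∈ T.R, ∀ e t K w, (st v).Pass e t K w → inl e ∈ T.R ∨ inl e ∈ L
  late : ∀ e ∈ L, e ∉ T.R

theorem exists_tw (hd : ∀ v, (nb G v).card ≤ D + 1) (s0 : C.St) (h0 : s0.q = s0.z) {ι : Type}
    (mb : ι → PV V → Prop) (cl : PV V → ι) (hcl : ∀ u, mb (cl u) u)
    (E : PV V × PV V × (PV V → ℕ) → ℕ → PV V × PV V × (PV V → ℕ) → ℕ → PV V → Prop)
    (pf : PV V → PV V → ℕ) : ∃ T st q, Tw C s0 T st (T.Late mb cl q (T.El E)) ∧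
      Own T mb cl q (T.El E) pf := by
  obtain ⟨T, st, q, a, b, c, _, e, f, g, k, l⟩ := C.rules.exists_tr hd C.rel mb cl hcl E pf s0 h0
  have key : ∀ v ∈ T.R, v ≠ T.r → (st v).dat = (st (T.p v)).dat ∧ v ∈ T.O (T.p v) ∨
      v ∉ T.O (T.p v) ∧ ∃ K w, (st (T.p v)).Pass v.fst (st v) K w := fun v hv hr => by
    obtain ⟨a, rfl, _⟩ := PD_real (b ▸ T.real v hv)
    obtain ⟨k1, k2 | k2⟩ := k a hv hr
    · exact .inl ⟨congrArg St.dat (k1.trans (St.nx_arc k2.1)) |>.trans rfl, k2.2⟩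
    · have j : T.d (inl a) = T.d (T.p (inl a)) + 3 := k2.2
      refine .inr ⟨fun o => ?_, k1 ▸ St.nx_pass (mem_filter.1 k2.1).2⟩
      have := (T.clo _ (T.p_mem _ hv hr) _ o).2
      omega
  refine ⟨T, st, q, ⟨a, b, c, e, g, fun v hv hr => (key v hv hr).imp_left And.left,
    fun v hv hr n => ((key v hv hr).resolve_left fun j => n j.2).2, fun v hv e t K w p => ?_,
    fun e k => (mem_filter.1 k).2.2.1⟩, f⟩
  obtain ⟨l1, l2, _, l3⟩ := l v hv e (mem_filter.2 ⟨mem_univ _, t, K, w, p⟩)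
  refine or_iff_not_imp_left.2 fun n => mem_filter.2 ⟨mem_univ _, fun j => ?_, n, l1, l2, v, hv,
    fun j => n (l3 j).1⟩
  exact (C.mem_sl.1 p.he).2 (PD_l.1 (b ▸ j))

namespace Tw

variable {s0 : C.St} {T : Tr (PG G C.U C.P) D} {st : PV V → C.St} {L : Finset (PV V)}
  (h : Tw C s0 T st L)
  {v x : PV V} {a e w m : V} {K : Finset V}
include h

theorem col_l (hv : v ∈ T.R) (k : a ∉ C.U ∪ C.P) : T.col v (inl a) = (st v).f a := by
  rw [(h.z v hv).2.2]; exact C.rules.col_l _ k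

theorem col_r (hv : v ∈ T.R) (p : V × V) : T.col v (inr p) = (st v).port p.1 p.2 := by
  rw [(h.z v hv).2.2]; rfl

theorem z_eq (hv : inl a ∈ T.R) : (st (inl a)).z = a := (inl_injective (h.z _ hv).1).symm

theorem adj_r (hv : v ∈ T.R) (hm : m ∈ C.U) (k : G.Adj (st v).z m) :
    (PG G C.U C.P).Adj v (inr ((st v).z, m)) := by
  nth_rewrite 1 [(h.z v hv).1]
  exact ⟨rfl, (st v).real, hm, k⟩

theorem adj_l (hv : v ∈ T.R) (hm : m ∉ C.U ∪ C.P) (k : G.Adj (st v).z m) :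
    (PG G C.U C.P).Adj v (inl m) := by
  nth_rewrite 1 [(h.z v hv).1]
  exact (PG_real (st v).real hm).2 k

/-- A unique port is a pin. -/
theorem dr_pin (hv : v ∈ T.R) (hx : x ∈ T.Dr v) (dm : x ∈ T.Dm) : ∃ w ∈ C.U, x = inr ((st v).z, w) ∧
    (st v).pin (st v).z w < D ∧
    (∀ m, m ∉ C.U ∪ C.P → G.Adj (st v).z m → (st v).f m ≠ (st v).pin (st v).z w) ∧
    ∀ m ∈ C.U, m ≠ w → G.Adj (st v).z m → (st v).port (st v).z m ≠ (st v).pin (st v).z w := by
  obtain ⟨⟨a1, _, a3⟩, _, l⟩ := IsB.mem_Dr.1 hx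
  rcases x with b | ⟨b, w⟩
  · have := C.rules.col_big (st v) (PD_l.1 (h.dm ▸ dm))
    rw [(h.z v hv).2.2] at l; omega
  have a2 := a1
  rw [(h.z v hv).1] at a2
  obtain ⟨rfl, _, hw, _⟩ : (st v).z = b ∧ _ := a2
  rw [h.col_r hv] at l
  have k1 : ∀ m, m ∉ C.U ∪ C.P → G.Adj (st v).z m → (st v).f m ≠ (st v).port (st v).z w :=
    fun m p q => by
      have := a3 (inl m) (h.adj_l hv p q) (by simp)
      rwa [h.col_l hv p, h.col_r hv] at this
  have k2 : ∀ m ∈ C.U, m ≠ w → G.Adj (st v).z m →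
      (st v).port (st v).z m ≠ (st v).port (st v).z w := fun m p n q => by
    have := a3 _ (h.adj_r hv p q) (by simp [n])
    rwa [h.col_r hv, h.col_r hv] at this
  rcases (st v).port_cases (st v).z w with e | ⟨_, e, _⟩
  · exact ⟨w, hw, rfl, e ▸ l, e ▸ k1, e ▸ k2⟩
  · have := (C.ok _ ((st v).fill (K := ∅) l k1 fun m p _ j => ?_).1).card
    · simp [frK] at this
    · have l' : (st v).pin (st v).z m < D := j ▸ l
      rcases (st v).pin_cases (st v).z m with i | i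
      · omega
      · exact k2 m p (fun n => by subst n; dsimp only at *; omega) (C.mem_sl.1 i.2.2.2.1).1.symm
          ((St.port_pin l').trans j)

end Tw

end Cx

end Pool.Agent.Lib.MP_12eaff_co.Acc2
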